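import Pool.Agent.Helper67.SQ.Basic
import Pool.Agent.Helper40.SQ.SolDist

/-!
# Quasiverticality from descending and ascending neighbours
-/

namespace Helper67.SQ

open Real Finset

/-- Sequences whose steps are bounded by the decrease of a positive sequence have a limit
point. -/
theorem exists_limit (a b : ℕ → ℝ) (B : ℝ) (hb : ∀ k, 0 ≤ b k) (hB : 0 ≤ B)
    (h : ∀ k, |a k - a (k + 1)| ≤ B * (b k - b (k + 1))) :
    ∃ y : ℝ, ∀ k, |a k - y| ≤ B * b k := by
  have h1 : ∀ k m, |a k - a (k + m)| ≤ B * (b k - b (k + m)) := by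
    intro k m
    induction m with
    | zero => simp
    | succ m ih =>
      calc |a k - a (k + (m + 1))| = |(a k - a (k + m)) + (a (k + m) - a (k + m + 1))| := by
            rw [← add_assoc]; ring_nf
        _ ≤ |a k - a (k + m)| + |a (k + m) - a (k + m + 1)| := abs_add_le _ _
        _ ≤ B * (b k - b (k + m)) + B * (b (k + m) - b (k + m + 1)) := add_le_add ih (h _)
        _ = B * (b k - b (k + (m + 1))) := by rw [← add_assoc]; ring
  have h2 : ∀ k m, a k - B * b k ≤ a m + B * b m := by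
    intro k m
    have e1 := mul_nonneg hB (hb k)
    have e2 := mul_nonneg hB (hb m)
    rcases le_total k m with hkm | hkm
    · obtain ⟨d, rfl⟩ := Nat.exists_eq_add_of_le hkm
      have := abs_le.1 (h1 k d)
      nlinarith [this.2]
    · obtain ⟨d, rfl⟩ := Nat.exists_eq_add_of_le hkm
      have := abs_le.1 (h1 m d)
      nlinarith [this.1]
  refine ⟨⨆ k, (a k - B * b k), fun k => ?_⟩
  have hbdd : BddAbove (Set.range fun k => a k - B * b k) :=
    ⟨a 0 + B * b 0, by rintro _ ⟨m, rfl⟩; exact h2 m 0⟩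
  rw [abs_le]
  constructor
  · have : ⨆ k, (a k - B * b k) ≤ a k + B * b k := ciSup_le fun m => h2 m k
    linarith
  · have : a k - B * b k ≤ ⨆ k, (a k - B * b k) := le_ciSup hbdd k
    linarith

theorem two_exp_le {s t : ℝ} (h : s < t - 1) : 2 * exp s ≤ exp t := by
  have h1 : exp (s + 1) ≤ exp t := exp_le_exp.2 (by linarith)
  rw [exp_add] at h1
  have h2 : (2 : ℝ) ≤ exp 1 := by
    have := add_one_le_exp (1 : ℝ)
    linarith
  nlinarith [exp_pos s]

/-- Follow the descending sequence. -/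
theorem descend {P : Type*} (X Y T : P → ℝ) (R : P → P → Prop) (E B : ℝ) (hB : 0 ≤ B)
    (hstep : ∀ p q, R p q → |T p - T q| ≤ E ∧ |X p - X q| ≤ B * exp (-T p) ∧
      |Y p - Y q| ≤ B * exp (T p))
    (hdesc : ∀ p, ∃ q, R p q ∧ T q < T p - 1) (p : P) :
    ∃ y₀ : ℝ, |Y p - y₀| ≤ 2 * B * exp (T p) ∧ ∀ τ ≤ T p, ∃ q, T q ≤ T p ∧ |τ - T q| ≤ E ∧
      |X p - X q| ≤ 2 * B * exp (-T q) ∧ |Y q - y₀| ≤ 2 * B * exp (T q) := by
  choose f hf1 hf2 using hdesc
  set q : ℕ → P := fun k => f^[k] p with hq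
  have hq0 : q 0 = p := rfl
  have hqs : ∀ k, q (k + 1) = f (q k) := fun k => by
    simp only [hq, Function.iterate_succ_apply']
  have hR : ∀ k, R (q k) (q (k + 1)) := fun k => by rw [hqs]; exact hf1 _
  have hT : ∀ k, T (q (k + 1)) < T (q k) - 1 := fun k => by rw [hqs]; exact hf2 _
  have hTk : ∀ k : ℕ, T (q k) ≤ T p - k := by
    intro k
    induction k with
    | zero => simp [hq0]
    | succ k ih => push_cast; linarith [hT k]
  obtain ⟨y, hy⟩ := exists_limit (fun k => Y (q k)) (fun k => exp (T (q k))) (2 * B)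
    (fun k => (exp_pos _).le) (by linarith) (fun k => by
      refine (hstep _ _ (hR k)).2.2.trans ?_
      have := two_exp_le (hT k)
      nlinarith)
  have hX : ∀ k, |X p - X (q k)| ≤ 2 * B * (exp (-T (q k)) - exp (-T p)) := by
    intro k
    induction k with
    | zero => simp [hq0]
    | succ k ih =>
      have h1 := (hstep _ _ (hR k)).2.1
      have h2 : 2 * exp (-T (q k)) ≤ exp (-T (q (k + 1))) :=
        two_exp_le (by linarith [hT k])
      calc |X p - X (q (k + 1))| = |(X p - X (q k)) + (X (q k) - X (q (k + 1)))| := by ring_nf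
        _ ≤ |X p - X (q k)| + |X (q k) - X (q (k + 1))| := abs_add_le _ _
        _ ≤ 2 * B * (exp (-T (q k)) - exp (-T p)) + B * exp (-T (q k)) := add_le_add ih h1
        _ ≤ 2 * B * (exp (-T (q (k + 1))) - exp (-T p)) := by
            have e1 := mul_le_mul_of_nonneg_left h2 hB
            have e2 := mul_nonneg hB (exp_pos (-T (q k))).le
            nlinarith
  refine ⟨y, by simpa [hq0] using hy 0, fun τ hτ => ?_⟩
  have hex : ∃ k, T (q k) < τ := by
    obtain ⟨k, hk⟩ := exists_nat_gt (T p - τ)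
    exact ⟨k, by linarith [hTk k]⟩
  classical
  have hfind := Nat.find_spec hex
  have hne : Nat.find hex ≠ 0 := by
    intro h0
    rw [h0, hq0] at hfind
    linarith
  obtain ⟨k, hk⟩ := Nat.exists_eq_succ_of_ne_zero hne
  rw [hk] at hfind
  have hk' : τ ≤ T (q k) := by
    have := Nat.find_min hex (m := k) (by omega)
    exact not_lt.1 this
  refine ⟨q k, ?_, ?_, ?_, hy k⟩
  · have := hTk k
    have : (0 : ℝ) ≤ k := Nat.cast_nonneg k
    linarith [hTk k]
  · have h1 := abs_le.1 (hstep _ _ (hR k)).1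
    have h2 : T (q (k + 1)) < τ := hfind
    rw [abs_le]
    constructor <;> linarith [h1.1, h1.2]
  · refine (hX k).trans ?_
    have := exp_pos (-T p)
    nlinarith

theorem quasivertical_of (K C D : ℝ) (hK : 1 ≤ K) (hC : 0 ≤ C) (hD : 0 ≤ D) : ∃ A : ℝ, 0 ≤ A ∧
    ∀ φ : UpperHalfPlane → Sol, IsQIEmb K C φ →
    (∀ p, ∃ q, dist p q ≤ D ∧ (φ q).t < (φ p).t - 1) →
    (∀ p, ∃ q, dist p q ≤ D ∧ (φ p).t + 1 < (φ q).t) → IsQuasivertical A φ := by
  set E : ℝ := K * D + C with hE
  have hE0 : 0 ≤ E := by positivity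
  set B : ℝ := E * exp E with hB
  have hB0 : 0 ≤ B := by positivity
  refine ⟨E + 6 * B, by positivity, fun φ hφ hdown hup p => ?_⟩
  have hstep : ∀ p q : UpperHalfPlane, dist p q ≤ D → |(φ p).t - (φ q).t| ≤ E ∧
      |(φ p).x - (φ q).x| ≤ B * exp (-(φ p).t) ∧ |(φ p).y - (φ q).y| ≤ B * exp ((φ p).t) := by
    intro p q hpq
    have h1 : solDist (φ p) (φ q) ≤ E := by
      refine (hφ p q).2.trans ?_
      rw [hE]
      have := mul_le_mul_of_nonneg_left hpq (by linarith : (0 : ℝ) ≤ K)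
      linarith
    obtain ⟨l1, l2, l3⟩ := solDist_lower (φ p) (φ q)
    have h0 : 0 ≤ solDist (φ p) (φ q) := (abs_nonneg _).trans l1
    have h2 : solDist (φ p) (φ q) * exp (solDist (φ p) (φ q)) ≤ B := by
      rw [hB]
      exact mul_le_mul h1 (exp_le_exp.2 h1) (exp_pos _).le hE0
    exact ⟨l1.trans h1, l2.trans (mul_le_mul_of_nonneg_right h2 (exp_pos _).le),
      l3.trans (mul_le_mul_of_nonneg_right h2 (exp_pos _).le)⟩
  obtain ⟨y₀, hy1, hy2⟩ := descend (fun p => (φ p).x) (fun p => (φ p).y) (fun p => (φ p).t)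
    (fun p q => dist p q ≤ D) E B hB0 hstep hdown p
  obtain ⟨x₀, hx1, hx2⟩ := descend (fun p => (φ p).y) (fun p => (φ p).x) (fun p => -(φ p).t)
    (fun p q => dist p q ≤ D) E B hB0
    (fun p q hpq => by
      obtain ⟨h1, h2, h3⟩ := hstep p q hpq
      refine ⟨?_, ?_, h2⟩
      · rw [show -(φ p).t - -(φ q).t = -((φ p).t - (φ q).t) by ring, abs_neg]
        exact h1
      · simpa using h3)
    (fun p => by
      obtain ⟨q, h1, h2⟩ := hup p
      exact ⟨q, h1, by linarith⟩) p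
  simp only [neg_neg] at hx1 hx2
  have hpoint : ∀ (q : UpperHalfPlane) (τ : ℝ), |τ - (φ q).t| ≤ E →
      |(φ q).x - x₀| ≤ 4 * B * exp (-(φ q).t) → |(φ q).y - y₀| ≤ 2 * B * exp ((φ q).t) ∨
      |(φ q).x - x₀| ≤ 2 * B * exp (-(φ q).t) → |(φ q).y - y₀| ≤ 4 * B * exp ((φ q).t) →
      solDist ⟨x₀, y₀, τ⟩ (φ q) ≤ E + 6 * B := by
    intro q τ h1 h2 h3 h4
    refine (solDist_le _ _ (φ q).t (φ q).t).trans ?_
    simp only [sub_self, abs_zero, add_zero]
    rw [abs_sub_comm x₀, abs_sub_comm y₀]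
    have e1 : exp (φ q).t * exp (-(φ q).t) = 1 := by rw [← exp_add]; simp
    have p1 := exp_pos (φ q).t
    have p2 := exp_pos (-(φ q).t)
    have a1 : exp (φ q).t * |(φ q).x - x₀| ≤ 4 * B := by
      calc exp (φ q).t * |(φ q).x - x₀| ≤ exp (φ q).t * (4 * B * exp (-(φ q).t)) :=
            mul_le_mul_of_nonneg_left h2 p1.le
        _ = 4 * B * (exp (φ q).t * exp (-(φ q).t)) := by ring
        _ = 4 * B := by rw [e1, mul_one]
    have a2 : exp (-(φ q).t) * |(φ q).y - y₀| ≤ 4 * B := by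
      calc exp (-(φ q).t) * |(φ q).y - y₀| ≤ exp (-(φ q).t) * (4 * B * exp ((φ q).t)) :=
            mul_le_mul_of_nonneg_left h4 p2.le
        _ = 4 * B * (exp (φ q).t * exp (-(φ q).t)) := by ring
        _ = 4 * B := by rw [e1, mul_one]
    rcases h3 with h3 | h3
    · have a3 : exp (-(φ q).t) * |(φ q).y - y₀| ≤ 2 * B := by
        calc exp (-(φ q).t) * |(φ q).y - y₀| ≤ exp (-(φ q).t) * (2 * B * exp ((φ q).t)) :=
              mul_le_mul_of_nonneg_left h3 p2.le
          _ = 2 * B * (exp (φ q).t * exp (-(φ q).t)) := by ring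
          _ = 2 * B := by rw [e1, mul_one]
      linarith
    · have a3 : exp (φ q).t * |(φ q).x - x₀| ≤ 2 * B := by
        calc exp (φ q).t * |(φ q).x - x₀| ≤ exp (φ q).t * (2 * B * exp (-(φ q).t)) :=
              mul_le_mul_of_nonneg_left h3 p1.le
          _ = 2 * B * (exp (φ q).t * exp (-(φ q).t)) := by ring
          _ = 2 * B := by rw [e1, mul_one]
      linarith
  refine ⟨x₀, y₀, ⟨(φ p).t, ?_⟩, fun τ => ?_⟩
  · refine (solDist_le _ _ (φ p).t (φ p).t).trans ?_
    simp only [sub_self, abs_zero, add_zero, zero_add]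
    have e1 : exp (φ p).t * exp (-(φ p).t) = 1 := by rw [← exp_add]; simp
    have a1 : exp (φ p).t * |(φ p).x - x₀| ≤ 2 * B := by
      calc exp (φ p).t * |(φ p).x - x₀| ≤ exp (φ p).t * (2 * B * exp (-(φ p).t)) :=
            mul_le_mul_of_nonneg_left hx1 (exp_pos _).le
        _ = 2 * B * (exp (φ p).t * exp (-(φ p).t)) := by ring
        _ = 2 * B := by rw [e1, mul_one]
    have a2 : exp (-(φ p).t) * |(φ p).y - y₀| ≤ 2 * B := by
      calc exp (-(φ p).t) * |(φ p).y - y₀| ≤ exp (-(φ p).t) * (2 * B * exp ((φ p).t)) :=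
            mul_le_mul_of_nonneg_left hy1 (exp_pos _).le
        _ = 2 * B * (exp (φ p).t * exp (-(φ p).t)) := by ring
        _ = 2 * B := by rw [e1, mul_one]
    linarith
  · rcases le_total τ (φ p).t with hτ | hτ
    · obtain ⟨q, q1, q2, q3, q4⟩ := hy2 τ hτ
      refine ⟨q, hpoint q τ q2 ?_ (Or.inl q4) ?_⟩
      · have h1 : exp (-(φ p).t) ≤ exp (-(φ q).t) := exp_le_exp.2 (by linarith)
        calc |(φ q).x - x₀| = |-((φ p).x - (φ q).x) + ((φ p).x - x₀)| := by ring_nf
          _ ≤ |-((φ p).x - (φ q).x)| + |(φ p).x - x₀| := abs_add_le _ _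
          _ ≤ 2 * B * exp (-(φ q).t) + 2 * B * exp (-(φ p).t) := by
              rw [abs_neg]; exact add_le_add q3 hx1
          _ ≤ 4 * B * exp (-(φ q).t) := by nlinarith
      · refine q4.trans ?_
        have := exp_pos (φ q).t
        nlinarith
    · obtain ⟨q, q1, q2, q3, q4⟩ := hx2 (-τ) (by linarith)
      have q2' : |τ - (φ q).t| ≤ E := by
        rw [show -τ - -(φ q).t = -(τ - (φ q).t) by ring, abs_neg] at q2
        exact q2
      refine ⟨q, hpoint q τ q2' ?_ (Or.inr q4) ?_⟩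
      · refine q4.trans ?_
        have := exp_pos (-(φ q).t)
        nlinarith
      · have h1 : exp ((φ p).t) ≤ exp ((φ q).t) := exp_le_exp.2 (by linarith)
        calc |(φ q).y - y₀| = |-((φ p).y - (φ q).y) + ((φ p).y - y₀)| := by ring_nf
          _ ≤ |-((φ p).y - (φ q).y)| + |(φ p).y - y₀| := abs_add_le _ _
          _ ≤ 2 * B * exp ((φ q).t) + 2 * B * exp ((φ p).t) := by
              rw [abs_neg]; exact add_le_add q3 hy1
          _ ≤ 4 * B * exp ((φ q).t) := by nlinarith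

end Helper67.SQ
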