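import Pool.Agent.Helper67.SQ.Basic

/-!
# Walks in the binary tiling: crossing a region, distance to the boundary of a window
-/

namespace Helper67.SQ

open Real Finset

/-- The neighbours of an interior vertex of a region belong to the region. -/
theorem int_nbr {s : ℤ} {n : ℕ} {l r : ℕ → ℤ} (hl : IsDesc n l) (hr : IsDesc n r) {p q : V}
    (hp : p ∈ Int' s n l r) (h : Adj p q) : q ∈ Reg s n l r := by
  obtain ⟨k, hk0, hkn, h1, h2, h3⟩ := hp
  obtain ⟨k, rfl⟩ : ∃ k', k = k' + 1 := ⟨k - 1, by omega⟩
  have a1 := hl k (by omega)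
  have a2 : l (k + 2) = 2 * l (k + 1) ∨ l (k + 2) = 2 * l (k + 1) + 1 := hl (k + 1) hkn
  have b1 := hr k (by omega)
  have b2 : r (k + 2) = 2 * r (k + 1) ∨ r (k + 2) = 2 * r (k + 1) + 1 := hr (k + 1) hkn
  push_cast at h1
  rcases h with h | h
  · cases h with
    | horiz d j => exact ⟨k + 1, hkn.le, by simpa using h1, by simp at *; omega, by simp at *; omega⟩
    | left d j =>
      exact ⟨k + 2, by omega, by simp at *; omega, by simp at *; omega, by simp at *; omega⟩
    | right d j =>
      exact ⟨k + 2, by omega, by simp at *; omega, by simp at *; omega, by simp at *; omega⟩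
    | diag d j =>
      exact ⟨k + 2, by omega, by simp at *; omega, by simp at *; omega, by simp at *; omega⟩
  · cases h with
    | horiz d j => exact ⟨k + 1, hkn.le, by simpa using h1, by simp at *; omega, by simp at *; omega⟩
    | left d j =>
      exact ⟨k, by omega, by simp at *; omega, by simp at *; omega, by simp at *; omega⟩
    | right d j =>
      exact ⟨k, by omega, by simp at *; omega, by simp at *; omega, by simp at *; omega⟩
    | diag d j =>
      exact ⟨k, by omega, by simp at *; omega, by simp at *; omega, by simp at *; omega⟩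

/-- A path from the region to the outside meets the boundary. -/
theorem cross (s : ℤ) (n : ℕ) (l r : ℕ → ℤ) (hl : IsDesc n l) (hr : IsDesc n r)
    (h0 : l 0 = r 0) (m : ℕ) (p q : V)
    (hp : p ∈ Reg s n l r) (hq : q ∉ Int' s n l r) (hpq : Near m p q) :
    ∃ z k, Near m p z ∧ k ≤ n ∧ z.1 = s + k ∧ (z.2 = l k ∨ z.2 = r k ∨
      (k = n ∧ l n ≤ z.2 ∧ z.2 ≤ r n)) := by
  induction m generalizing p with
  | zero =>
    have hpq' : p = q := hpq
    subst hpq'
    obtain ⟨k, hk, h1, h2, h3⟩ := hp
    refine ⟨p, k, Near.refl 0 p, hk, h1, ?_⟩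
    by_contra hcon
    push Not at hcon
    obtain ⟨c1, c2, c3⟩ := hcon
    apply hq
    refine ⟨k, ?_, ?_, h1, lt_of_le_of_ne h2 (Ne.symm c1), lt_of_le_of_ne h3 c2⟩
    · rcases Nat.eq_zero_or_pos k with rfl | h
      · exfalso; omega
      · exact h
    · rcases Nat.lt_or_ge k n with h | h
      · exact h
      · exfalso
        have hkn : k = n := le_antisymm hk h
        subst hkn
        have := c3 rfl h2
        omega
  | succ m ih =>
    by_cases hin : p ∈ Int' s n l r
    · obtain ⟨t, ht, hnear⟩ := hpq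
      have htR : t ∈ Reg s n l r := by
        rcases ht with rfl | ht
        · exact hp
        · exact int_nbr hl hr hin ht
      obtain ⟨z, k, hz, hk, h1, h2⟩ := ih t htR hnear
      exact ⟨z, k, ⟨t, ht, hz⟩, hk, h1, h2⟩
    · obtain ⟨k, hk, h1, h2, h3⟩ := hp
      refine ⟨p, k, Near.refl _ p, hk, h1, ?_⟩
      by_contra hcon
      push Not at hcon
      obtain ⟨c1, c2, c3⟩ := hcon
      apply hin
      refine ⟨k, ?_, ?_, h1, lt_of_le_of_ne h2 (Ne.symm c1), lt_of_le_of_ne h3 c2⟩
      · rcases Nat.eq_zero_or_pos k with rfl | h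
        · exfalso; omega
        · exact h
      · rcases Nat.lt_or_ge k n with h | h
        · exact h
        · exfalso
          have hkn : k = n := le_antisymm hk h
          subst hkn
          have := c3 rfl h2
          omega

/-- The horizontal position of a vertex. -/
noncomputable def hpos (p : V) : ℝ := (p.2 : ℝ) * (2 : ℝ) ^ (-p.1)

theorem hpos_adj {p q : V} (h : Adj p q) :
    |hpos p - hpos q| ≤ (2 : ℝ) ^ (-p.1) ∧ (2 : ℝ) ^ (-q.1) ≤ 2 * (2 : ℝ) ^ (-p.1) := by
  have key : ∀ d : ℤ, (2 : ℝ) ^ (-d) = 2 * (2 : ℝ) ^ (-(d + 1)) := by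
    intro d
    rw [show -d = -(d + 1) + 1 by ring, zpow_add₀ (by norm_num : (2 : ℝ) ≠ 0)]
    ring
  have pos : ∀ d : ℤ, 0 < (2 : ℝ) ^ (-d) := fun d => zpow_pos (by norm_num) _
  unfold hpos
  rcases h with h | h
  · cases h with
    | horiz d j =>
      have hp := pos d
      simp only
      constructor
      · rw [abs_le]; push_cast; constructor <;> nlinarith
      · linarith
    | left d j =>
      have hp := pos (d + 1)
      have := key d
      simp only
      constructor
      · rw [abs_le, this]; push_cast; constructor <;> nlinarith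
      · rw [this]; linarith
    | right d j =>
      have hp := pos (d + 1)
      have := key d
      simp only
      constructor
      · rw [abs_le, this]; push_cast; constructor <;> nlinarith
      · rw [this]; linarith
    | diag d j =>
      have hp := pos (d + 1)
      have := key d
      simp only
      constructor
      · rw [abs_le, this]; push_cast; constructor <;> nlinarith
      · rw [this]; linarith
  · cases h with
    | horiz d j =>
      have hp := pos d
      simp only
      constructor
      · rw [abs_le]; push_cast; constructor <;> nlinarith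
      · linarith
    | left d j =>
      have hp := pos (d + 1)
      have := key d
      simp only
      constructor
      · rw [abs_le, this]; push_cast; constructor <;> nlinarith
      · rw [this]
    | right d j =>
      have hp := pos (d + 1)
      have := key d
      simp only
      constructor
      · rw [abs_le, this]; push_cast; constructor <;> nlinarith
      · rw [this]
    | diag d j =>
      have hp := pos (d + 1)
      have := key d
      simp only
      constructor
      · rw [abs_le, this]; push_cast; constructor <;> nlinarith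
      · rw [this]

theorem hpos_near {m : ℕ} {p q : V} (h : Near m p q) :
    |hpos p - hpos q| ≤ ((2 : ℝ) ^ m - 1) * (2 : ℝ) ^ (-p.1) := by
  induction m generalizing p with
  | zero => rw [show p = q from h]; simp
  | succ m ih =>
    obtain ⟨r, hr, h'⟩ := h
    have h1 := ih h'
    have hp : 0 < (2 : ℝ) ^ (-p.1) := zpow_pos (by norm_num) _
    have h2 : |hpos p - hpos r| ≤ (2 : ℝ) ^ (-p.1) ∧ (2 : ℝ) ^ (-r.1) ≤ 2 * (2 : ℝ) ^ (-p.1) := by
      rcases hr with rfl | hr
      · simp only [sub_self, abs_zero]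
        exact ⟨hp.le, by linarith⟩
      · exact hpos_adj hr
    have h3 : (1 : ℝ) ≤ 2 ^ m := one_le_pow₀ (by norm_num)
    calc |hpos p - hpos q| = |(hpos p - hpos r) + (hpos r - hpos q)| := by ring_nf
      _ ≤ |hpos p - hpos r| + |hpos r - hpos q| := abs_add_le _ _
      _ ≤ (2 : ℝ) ^ (-p.1) + ((2 : ℝ) ^ m - 1) * (2 : ℝ) ^ (-r.1) := add_le_add h2.1 h1
      _ ≤ (2 : ℝ) ^ (-p.1) + ((2 : ℝ) ^ m - 1) * (2 * (2 : ℝ) ^ (-p.1)) := by
          have : 0 ≤ (2 : ℝ) ^ m - 1 := by linarith
          nlinarith [mul_le_mul_of_nonneg_left h2.2 this]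
      _ = ((2 : ℝ) ^ (m + 1) - 1) * (2 : ℝ) ^ (-p.1) := by ring

/-- The boundary of the window is far from its central vertex. -/
theorem far (s j u : ℤ) (N n m : ℕ) (hu1 : u * 2 ^ N ≤ j) (hu2 : j < (u + 1) * 2 ^ N) (q : V)
    (hq : Near m (s, j) q)
    (hb : (∃ i : ℤ, q = (s + n, i)) ∨ (∃ i : ℤ, q = (s - N, i)) ∨
      (∃ k : ℕ, q = (s - N + k, (u - 1) * 2 ^ k)) ∨
      (∃ k : ℕ, q = (s - N + k, (u + 2) * 2 ^ k))) :
    n ≤ m ∨ N ≤ m + 1 := by
  have hd := near_depth hq
  have hpn := hpos_near hq
  have hu1' : (u : ℝ) * 2 ^ N ≤ j := by exact_mod_cast hu1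
  have hu2' : (j : ℝ) < (u + 1) * 2 ^ N := by exact_mod_cast hu2
  have hs : 0 < (2 : ℝ) ^ (-s) := zpow_pos (by norm_num) _
  have hcol : ∀ (a : ℤ) (k : ℕ), hpos (s - N + k, a * 2 ^ k) = a * 2 ^ N * (2 : ℝ) ^ (-s) := by
    intro a k
    unfold hpos
    simp only
    rw [show -(s - (N : ℤ) + k) = (N : ℤ) + -s - k by ring, zpow_sub₀ (by norm_num : (2 : ℝ) ≠ 0),
      zpow_add₀ (by norm_num : (2 : ℝ) ≠ 0), zpow_natCast, zpow_natCast]
    push_cast
    field_simp
  have hfin : ∀ x : ℝ, |x| ≤ ((2 : ℝ) ^ m - 1) * (2 : ℝ) ^ (-s) →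
      2 ^ N * (2 : ℝ) ^ (-s) ≤ |x| → N ≤ m := by
    intro x h1 h2
    by_contra hlt
    push Not at hlt
    have h3 : (2 : ℝ) ^ m ≤ 2 ^ N := pow_le_pow_right₀ (by norm_num) hlt.le
    have h4 : 2 ^ N * (2 : ℝ) ^ (-s) ≤ ((2 : ℝ) ^ m - 1) * (2 : ℝ) ^ (-s) := h2.trans h1
    have h5 : (2 : ℝ) ^ N ≤ (2 : ℝ) ^ m - 1 := le_of_mul_le_mul_right h4 hs
    linarith
  rcases hb with ⟨i, rfl⟩ | ⟨i, rfl⟩ | ⟨k, rfl⟩ | ⟨k, rfl⟩
  · left
    simp only [sub_add_cancel_left, abs_neg, Nat.abs_cast] at hd
    exact_mod_cast hd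
  · right
    simp only [sub_sub_cancel, Nat.abs_cast] at hd
    have : N ≤ m := by exact_mod_cast hd
    omega
  · right
    have h1 := hcol (u - 1) k
    rw [h1] at hpn
    have := hfin _ hpn (by
      refine le_trans ?_ (le_abs_self _)
      unfold hpos
      simp only
      push_cast
      nlinarith)
    omega
  · right
    have h1 := hcol (u + 2) k
    rw [h1] at hpn
    have := hfin _ hpn (by
      refine le_trans ?_ (neg_le_abs _)
      unfold hpos
      simp only
      push_cast
      nlinarith)
    omega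

theorem adj_half (d i : ℤ) : Adj (d, i / 2) (d + 1, i) := by
  left
  rcases Int.emod_two_eq_zero_or_one i with h | h
  · have h2 : i = 2 * (i / 2) := by omega
    have := Edge.left d (i / 2)
    rwa [← h2] at this
  · have h2 : i = 2 * (i / 2) + 1 := by omega
    have := Edge.right d (i / 2)
    rwa [← h2] at this

theorem near_up (k : ℕ) (d i : ℤ) : Near k (d, i / 2 ^ k) (d + k, i) := by
  induction k generalizing i with
  | zero => simpa using Near.refl 0 (d, i)
  | succ k ih =>
    have h1 := ih (i / 2)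
    have h2 : Near 1 (d + k, i / 2) (d + k + 1, i) := Near.of_adj (adj_half _ _)
    have h3 := h1.trans h2
    rw [Int.ediv_ediv_of_nonneg (by norm_num), ← pow_succ'] at h3
    push_cast
    rwa [← add_assoc]

/-- The window is contained in a ball around the central vertex. -/
theorem win_near (s j u : ℤ) (N n : ℕ) (hu1 : u * 2 ^ N ≤ j) (hu2 : j < (u + 1) * 2 ^ N) (q : V)
    (hq : q ∈ Win s N n u) : Near (2 * N + n + 3) (s, j) q := by
  obtain ⟨k, hk, h1, h2, h3⟩ := hq
  obtain ⟨d, i⟩ := q
  simp only at h1 h2 h3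
  subst h1
  have hju : j / 2 ^ N = u := by
    apply le_antisymm
    · have : j / 2 ^ N < u + 1 := Int.ediv_lt_of_lt_mul (by positivity) hu2
      omega
    · exact (Int.le_ediv_iff_mul_le (by positivity)).2 hu1
  have hdown : Near N (s, j) (s - N, u) := by
    have := near_up N (s - N) j
    rw [hju, sub_add_cancel] at this
    exact this.symm
  have hup : Near k (s - N, i / 2 ^ k) (s - N + k, i) := near_up k (s - N) i
  have hi1 : u - 1 ≤ i / 2 ^ k := (Int.le_ediv_iff_mul_le (by positivity)).2 h2
  have hi2 : i / 2 ^ k ≤ u + 2 := by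
    have : i / 2 ^ k < u + 3 := by
      apply Int.ediv_lt_of_lt_mul (by positivity)
      have : (0 : ℤ) < 2 ^ k := by positivity
      nlinarith
    omega
  have hstep : ∀ a : ℤ, Near 1 (s - N, a) (s - N, a + 1) := fun a =>
    Near.of_adj (Or.inl (Edge.horiz _ _))
  have hmid : Near 3 (s - N, u) (s - N, i / 2 ^ k) := by
    have : i / 2 ^ k = u - 1 ∨ i / 2 ^ k = u ∨ i / 2 ^ k = u + 1 ∨ i / 2 ^ k = u + 2 := by omega
    rcases this with h | h | h | h
    · rw [h]
      have := hstep (u - 1)
      rw [sub_add_cancel] at this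
      exact this.symm.mono (by norm_num)
    · rw [h]; exact Near.refl _ _
    · rw [h]; exact (hstep u).mono (by norm_num)
    · rw [h]
      have := (hstep u).trans (hstep (u + 1))
      rw [show u + 1 + 1 = u + 2 by ring] at this
      exact this.mono (by norm_num)
  exact ((hdown.trans hmid).trans hup).mono (by omega)

end Helper67.SQ
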